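import Mathlib

/-!
# Steiner triple systems of the same order whose incidence graphs have different minimum
semidefinite ranks

Let `G` be the incidence graph of a Steiner triple system with `b` blocks.  An orthogonal
representation of `G` in `ℂ^(b+r)` gives, after projection away from the (pairwise orthogonal)
block vectors, vectors `y_p ∈ ℂ^r` attached to the points such that for each block `{p, q, s}` the
triple product `⟨y_p, y_q⟩⟨y_q, y_s⟩⟨y_s, y_p⟩` is a negative real number; conversely real vectors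
with this property give a representation.

* Upper bound: the systems of Bose on `ZMod u × Fin 3` (`u` odd) have such real vectors in `ℝ^9`.
* Lower bound: a block whose three (normalised) vectors are close to each other is impossible, so
  `r` bounds the number of colours in a colouring of the points without monochromatic block; by the
  Hales-Jewett theorem this number is unbounded for the affine systems on `𝔽₃^n`.
-/

open Matrix
open scoped ComplexOrder MatrixOrder

namespace Pool.Agent.Results.MP_2ade00_co.DifferentRanks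

/-! ## Definitions -/

/-- A Steiner triple system on the point set `V`: a family of `3`-element sets such that any two
distinct points lie in exactly one of them. -/
structure STS (V : Type) where
  blocks : Finset (Finset V)
  card_three : ∀ B ∈ blocks, B.card = 3
  pair : ∀ x y : V, x ≠ y → ∃! B, B ∈ blocks ∧ x ∈ B ∧ y ∈ B

/-- The incidence graph of a Steiner triple system: the vertices are the points and the blocks, a
point is adjacent to the blocks containing it. -/
def incGraph {V : Type} (S : STS V) : SimpleGraph (V ⊕ {B // B ∈ S.blocks}) where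
  Adj
    | .inl x, .inr B => x ∈ B.1
    | .inr B, .inl x => x ∈ B.1
    | _, _ => False
  symm := ⟨by rintro (x | B) (y | C) h <;> exact h⟩
  loopless := ⟨by rintro (x | B) h <;> exact h⟩

/-- The minimum semidefinite rank of a finite graph: the least rank of a complex positive
semidefinite (in particular Hermitian) matrix whose nonzero off-diagonal entries are exactly those
at the edges of the graph. -/
noncomputable def msr {n : Type} [Fintype n] (G : SimpleGraph n) : ℕ :=
  sInf {k | ∃ A : Matrix n n ℂ, A.PosSemidef ∧ (∀ i j, i ≠ j → (A i j ≠ 0 ↔ G.Adj i j)) ∧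
    A.rank = k}

/-- Isomorphism of Steiner triple systems. -/
def Iso {V W : Type} [DecidableEq W] (S : STS V) (T : STS W) : Prop :=
  ∃ e : V ≃ W, ∀ B : Finset V, B ∈ S.blocks ↔ B.image e ∈ T.blocks

/-! ## Upper bound -/

section upper

variable {V : Type} [Fintype V] [DecidableEq V]

omit [Fintype V] in
theorem exists_coeff (g : V → V → ℝ) (hsymm : ∀ p q, g p q = g q p) {B : Finset V}
    (hB : B.card = 3)
    (h : ∀ p ∈ B, ∀ q ∈ B, ∀ s ∈ B, p ≠ q → q ≠ s → p ≠ s → g p q * g q s * g s p < 0) :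
    ∃ c : V → ℝ, (∀ p, c p ≠ 0 ↔ p ∈ B) ∧ ∀ p ∈ B, ∀ q ∈ B, p ≠ q → c p * c q = - g p q := by
  obtain ⟨p, q, s, hpq, hps, hqs, rfl⟩ := Finset.card_eq_three.1 hB
  have h0 : g p q * g q s * g s p < 0 :=
    h p (by simp) q (by simp) s (by simp) hpq hqs hps
  have hpq0 : g p q ≠ 0 := by rintro h1; rw [h1] at h0; simp at h0
  have hqs0 : g q s ≠ 0 := by rintro h1; rw [h1] at h0; simp at h0
  have hsp0 : g s p ≠ 0 := by rintro h1; rw [h1] at h0; simp at h0
  have hpos : 0 < -(g p q * g s p / g q s) := by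
    have h1 : -(g p q * g s p / g q s) = (-(g p q * g q s * g s p)) / (g q s) ^ 2 := by
      field_simp
    rw [h1]
    exact div_pos (by linarith) (by positivity)
  obtain ⟨a, ha0, ha⟩ : ∃ a : ℝ, 0 < a ∧ a * a = -(g p q * g s p / g q s) :=
    ⟨Real.sqrt (-(g p q * g s p / g q s)), Real.sqrt_pos.2 hpos, Real.mul_self_sqrt hpos.le⟩
  have hps' := hps.symm
  have hpq' := hpq.symm
  have hqs' := hqs.symm
  have e1 : a * (-g p q / a) = - g p q := by field_simp
  have e2 : a * (-g s p / a) = - g s p := by field_simp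
  have e3 : (-g p q / a) * (-g s p / a) = - g q s := by
    have h2 : (-g p q / a) * (-g s p / a) = (g p q * g s p) / (a * a) := by
      field_simp
    rw [h2, ha]
    field_simp
  refine ⟨fun x => if x = p then a else if x = q then - g p q / a else
    if x = s then - g s p / a else 0, ?_, ?_⟩
  · intro x
    by_cases h1 : x = p
    · simp [h1, ha0.ne']
    · by_cases h2 : x = q
      · subst h2
        simp [h1, ha0.ne', hpq0]
      · by_cases h3 : x = s
        · subst h3
          simp [h1, h2, ha0.ne', hsp0]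
        · simp [h1, h2, h3]
  · intro x hx y hy hxy
    simp only [Finset.mem_insert, Finset.mem_singleton] at hx hy
    rcases hx with rfl | rfl | rfl <;> rcases hy with rfl | rfl | rfl
    · exact absurd rfl hxy
    · simpa [hpq'] using e1
    · simpa [hps', hqs', hsymm x y] using e2
    · rw [mul_comm, hsymm x y]; simpa [hpq'] using e1
    · exact absurd rfl hxy
    · simpa [hps', hpq', hqs'] using e3
    · rw [mul_comm]; simpa [hps', hqs'] using e2
    · rw [mul_comm, hsymm x y]; simpa [hps', hpq', hqs'] using e3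
    · exact absurd rfl hxy

/-- Upper bound for the minimum semidefinite rank of the incidence graph, from real vectors
with negative triple products on the blocks. -/
theorem msr_le (S : STS V) {R : Type} [Fintype R] (w : V → R → ℝ) (g : V → V → ℝ)
    (hg : ∀ p q, g p q = ∑ k, w p k * w q k)
    (h : ∀ B ∈ S.blocks, ∀ p ∈ B, ∀ q ∈ B, ∀ s ∈ B, p ≠ q → q ≠ s → p ≠ s →
      g p q * g q s * g s p < 0) :
    msr (incGraph S) ≤ S.blocks.card + Fintype.card R := by
  classical
  have hsymm : ∀ p q, g p q = g q p := by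
    intro p q
    rw [hg, hg]
    exact Finset.sum_congr rfl fun k _ => mul_comm _ _
  have hc : ∀ B : {B // B ∈ S.blocks}, ∃ c : V → ℝ, (∀ p, c p ≠ 0 ↔ p ∈ B.1) ∧
      ∀ p ∈ B.1, ∀ q ∈ B.1, p ≠ q → c p * c q = - g p q := fun B =>
    exists_coeff g hsymm (S.card_three B.1 B.2) (h B.1 B.2)
  choose c hc0 hc1 using hc
  let X : Matrix ({B // B ∈ S.blocks} ⊕ R) (V ⊕ {B // B ∈ S.blocks}) ℂ := fun a b =>
    match a, b with
    | .inl B, .inl p => ((c B p : ℝ) : ℂ)
    | .inl B, .inr C => if B = C then 1 else 0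
    | .inr k, .inl p => ((w p k : ℝ) : ℂ)
    | .inr _, .inr _ => 0
  have hrank : (Xᴴ * X).rank ≤ S.blocks.card + Fintype.card R := by
    rw [Matrix.rank_conjTranspose_mul_self]
    refine (Matrix.rank_le_card_height X).trans ?_
    simp
  have hentry : ∀ i j, (Xᴴ * X) i j = (∑ B, star (X (.inl B) i) * X (.inl B) j) +
      ∑ k, star (X (.inr k) i) * X (.inr k) j := by
    intro i j
    rw [Matrix.mul_apply, Fintype.sum_sum_type]
    simp [Matrix.conjTranspose_apply]
  refine le_trans (Nat.sInf_le ⟨Xᴴ * X, Matrix.posSemidef_conjTranspose_mul_self X, ?_, rfl⟩) hrank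
  have hpp : ∀ p q : V, p ≠ q → (Xᴴ * X) (.inl p) (.inl q) = 0 := by
    intro p q hpq
    rw [hentry]
    obtain ⟨B, ⟨hB, hpB, hqB⟩, huniq⟩ := S.pair p q hpq
    have h1 : (∑ C, star (X (.inl C) (.inl p)) * X (.inl C) (.inl q)) = ((-g p q : ℝ) : ℂ) := by
      rw [Finset.sum_eq_single (⟨B, hB⟩ : {B // B ∈ S.blocks})]
      · simp only [X, Complex.star_def, Complex.conj_ofReal]
        rw [← Complex.ofReal_mul, hc1 ⟨B, hB⟩ p hpB q hqB hpq]
      · intro C _ hC
        have h2 : c C p = 0 ∨ c C q = 0 := by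
          by_contra hcon
          push Not at hcon
          apply hC
          apply Subtype.ext
          exact huniq C.1 ⟨C.2, (hc0 C p).1 hcon.1, (hc0 C q).1 hcon.2⟩
        simp only [X, Complex.star_def, Complex.conj_ofReal]
        rcases h2 with h2 | h2 <;> simp [h2]
      · intro h2; exact absurd (Finset.mem_univ _) h2
    have h2 : (∑ k, star (X (.inr k) (.inl p)) * X (.inr k) (.inl q)) = ((g p q : ℝ) : ℂ) := by
      rw [hg]
      simp [X]
    rw [h1, h2]
    push_cast
    ring
  have hpB : ∀ (p : V) (B : {B // B ∈ S.blocks}), (Xᴴ * X) (.inl p) (.inr B) = c B p := by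
    intro p B
    rw [hentry]
    simp [X]
  have hBp : ∀ (p : V) (B : {B // B ∈ S.blocks}), (Xᴴ * X) (.inr B) (.inl p) = c B p := by
    intro p B
    rw [hentry]
    simp [X]
  have hBB : ∀ (B C : {B // B ∈ S.blocks}), B ≠ C → (Xᴴ * X) (.inr B) (.inr C) = 0 := by
    intro B C hBC
    rw [hentry]
    simp [X, hBC.symm]
  rintro (p | B) (q | C) hij
  · have hpq : p ≠ q := fun h => hij (by rw [h])
    simp [hpp p q hpq, incGraph]
  · rw [hpB, Complex.ofReal_ne_zero, hc0 C p]
    rfl
  · rw [hBp, Complex.ofReal_ne_zero, hc0 B q]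
    rfl
  · have hBC : B ≠ C := fun h => hij (by rw [h])
    simp [hBB B C hBC, incGraph]

end upper

/-! ## Lower bound -/

section lower

theorem msr_mem {n : Type} [Fintype n] (G : SimpleGraph n) :
    ∃ A : Matrix n n ℂ, A.PosSemidef ∧ (∀ i j, i ≠ j → (A i j ≠ 0 ↔ G.Adj i j)) ∧
      A.rank = msr G := by
  classical
  have hne : {k | ∃ A : Matrix n n ℂ, A.PosSemidef ∧ (∀ i j, i ≠ j → (A i j ≠ 0 ↔ G.Adj i j)) ∧
      A.rank = k}.Nonempty := by
    have hT : (G.incMatrix ℂ)ᴴ = (G.incMatrix ℂ)ᵀ := by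
      ext e v
      rw [Matrix.conjTranspose_apply, Matrix.transpose_apply, SimpleGraph.incMatrix_apply']
      split_ifs <;> simp
    refine ⟨_, G.incMatrix ℂ * (G.incMatrix ℂ)ᴴ, Matrix.posSemidef_self_mul_conjTranspose _, ?_, rfl⟩
    intro i j hij
    rw [hT, SimpleGraph.incMatrix_mul_transpose]
    simp [hij]
  exact Nat.sInf_mem hne

theorem exists_cover (d : ℕ) : ∃ t : Set (EuclideanSpace ℂ (Fin d)), t.Finite ∧
    ∀ x : EuclideanSpace ℂ (Fin d), ‖x‖ ≤ 1 → ∃ c ∈ t, dist x c < 1 / 10 := by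
  obtain ⟨t, -, ht, hcov⟩ := (isCompact_closedBall (0 : EuclideanSpace ℂ (Fin d)) 1).finite_cover_balls
    (e := 1 / 10) (by norm_num)
  refine ⟨t, ht, fun x hx => ?_⟩
  have := hcov (show x ∈ Metric.closedBall 0 1 by simpa using hx)
  simpa using this

theorem triple_close {a b c : ℂ} (ha : ‖a - 1‖ ≤ 1 / 5) (hb : ‖b - 1‖ ≤ 1 / 5)
    (hc : ‖c - 1‖ ≤ 1 / 5) : 0 < (a * b * c).re := by
  have e : a * b * c - 1 = (a - 1) + (b - 1) + (c - 1) + (a - 1) * (b - 1) + (b - 1) * (c - 1) +
      (a - 1) * (c - 1) + (a - 1) * (b - 1) * (c - 1) := by ring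
  have hab : ‖(a - 1) * (b - 1)‖ ≤ 1 / 5 * (1 / 5) := by
    rw [norm_mul]; exact mul_le_mul ha hb (norm_nonneg _) (by norm_num)
  have hbc : ‖(b - 1) * (c - 1)‖ ≤ 1 / 5 * (1 / 5) := by
    rw [norm_mul]; exact mul_le_mul hb hc (norm_nonneg _) (by norm_num)
  have hac : ‖(a - 1) * (c - 1)‖ ≤ 1 / 5 * (1 / 5) := by
    rw [norm_mul]; exact mul_le_mul ha hc (norm_nonneg _) (by norm_num)
  have habc : ‖(a - 1) * (b - 1) * (c - 1)‖ ≤ 1 / 5 * (1 / 5) * (1 / 5) := by
    rw [norm_mul]; exact mul_le_mul hab hc (norm_nonneg _) (by norm_num)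
  have h1 : ‖a * b * c - 1‖ < 1 := by
    rw [e]
    have t1 := norm_add_le ((a - 1) + (b - 1) + (c - 1) + (a - 1) * (b - 1) + (b - 1) * (c - 1) +
      (a - 1) * (c - 1)) ((a - 1) * (b - 1) * (c - 1))
    have t2 := norm_add_le ((a - 1) + (b - 1) + (c - 1) + (a - 1) * (b - 1) + (b - 1) * (c - 1))
      ((a - 1) * (c - 1))
    have t3 := norm_add_le ((a - 1) + (b - 1) + (c - 1) + (a - 1) * (b - 1)) ((b - 1) * (c - 1))
    have t4 := norm_add_le ((a - 1) + (b - 1) + (c - 1)) ((a - 1) * (b - 1))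
    have t5 := norm_add_le ((a - 1) + (b - 1)) (c - 1)
    have t6 := norm_add_le (a - 1) (b - 1)
    linarith
  have h2 : |(a * b * c - 1).re| ≤ ‖a * b * c - 1‖ := Complex.abs_re_le_norm _
  rw [Complex.sub_re, Complex.one_re] at h2
  have h3 := (abs_lt.1 (lt_of_le_of_lt h2 h1)).1
  linarith

variable {V : Type} [Fintype V] [DecidableEq V]

/-- Lower bound: if every suitable colouring of the points has a monochromatic block, the minimum
semidefinite rank is more than the number of blocks plus `r`. -/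
theorem lt_msr (S : STS V) (r : ℕ) (t : ∀ d : ℕ, Set (EuclideanSpace ℂ (Fin d)))
    (ht : ∀ d, ∀ x : EuclideanSpace ℂ (Fin d), ‖x‖ ≤ 1 → ∃ c ∈ t d, dist x c < 1 / 10)
    (hmono : ∀ d ≤ r, ∀ C : V → t d, ∃ B ∈ S.blocks, ∀ x ∈ B, ∀ y ∈ B, C x = C y)
    (hV : ∀ p : V, ∃ q, p ≠ q) :
    S.blocks.card + r < msr (incGraph S) := by
  by_contra hcon
  push Not at hcon
  obtain ⟨A, hA, hadj, hrank⟩ := msr_mem (incGraph S)
  rw [← hrank] at hcon
  obtain ⟨M, rfl⟩ := CStarAlgebra.nonneg_iff_eq_star_mul_self.mp hA.nonneg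
  rw [star_eq_conjTranspose, Matrix.rank_conjTranspose_mul_self] at hcon
  rw [star_eq_conjTranspose] at hadj
  let x : V ⊕ {B // B ∈ S.blocks} → EuclideanSpace ℂ (V ⊕ {B // B ∈ S.blocks}) :=
    fun i => WithLp.toLp 2 (fun k => M k i)
  have hinner : ∀ i j, inner ℂ (x i) (x j) = (Mᴴ * M) i j := by
    intro i j
    rw [EuclideanSpace.inner_eq_star_dotProduct, Matrix.mul_apply]
    simp only [x, dotProduct, Matrix.conjTranspose_apply, Pi.star_apply]
    exact Finset.sum_congr rfl fun k _ => mul_comm _ _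
  have hU : Module.finrank ℂ (Submodule.span ℂ (Set.range x)) = M.rank := by
    rw [Matrix.rank_eq_finrank_span_cols]
    have h1 : Submodule.span ℂ (Set.range x) =
        (Submodule.span ℂ (Set.range M.col)).map
          ((WithLp.linearEquiv 2 ℂ (V ⊕ {B // B ∈ S.blocks} → ℂ)).symm : _ →ₗ[ℂ] _) := by
      rw [Submodule.map_span, ← Set.range_comp]
      rfl
    rw [h1]
    exact LinearEquiv.finrank_map_eq _ _
  set U := Submodule.span ℂ (Set.range x) with hUdef
  have hxU : ∀ i, x i ∈ U := fun i => Submodule.subset_span ⟨i, rfl⟩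
  -- the block vectors
  have hBB : ∀ B C : {B // B ∈ S.blocks}, B ≠ C → inner ℂ (x (.inr B)) (x (.inr C)) = 0 := by
    intro B C hBC
    rw [hinner]
    by_contra h
    exact (hadj _ _ (by simpa using hBC)).1 h
  have hB0 : ∀ B : {B // B ∈ S.blocks}, x (.inr B) ≠ 0 := by
    intro B h0
    have h3 : B.1.card = 3 := S.card_three B.1 B.2
    obtain ⟨p, hp⟩ : B.1.Nonempty := by
      rw [← Finset.card_pos]; omega
    have h1 := (hadj (.inr B) (.inl p) (by simp)).2 hp
    rw [← hinner, h0, inner_zero_left] at h1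
    exact h1 rfl
  have hpq : ∀ p q : V, p ≠ q → inner ℂ (x (.inl p)) (x (.inl q)) = 0 := by
    intro p q h
    rw [hinner]
    by_contra h1
    exact (hadj _ _ (by simpa using h)).1 h1
  have hpB : ∀ (p : V) (B : {B // B ∈ S.blocks}),
      inner ℂ (x (.inr B)) (x (.inl p)) ≠ 0 ↔ p ∈ B.1 := by
    intro p B
    rw [hinner]
    exact hadj _ _ (by simp)
  have hN : ∀ B : {B // B ∈ S.blocks}, inner ℂ (x (.inr B)) (x (.inr B)) ≠ 0 := fun B =>
    inner_self_ne_zero.2 (hB0 B)
  set W := Submodule.span ℂ (Set.range fun B : {B // B ∈ S.blocks} => x (.inr B)) with hW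
  have hWU : W ≤ U := by
    rw [hW, Submodule.span_le]
    rintro _ ⟨B, rfl⟩
    exact hxU _
  have hWfin : Module.finrank ℂ W = S.blocks.card := by
    rw [hW, finrank_span_eq_card]
    · simp
    · exact linearIndependent_of_ne_zero_of_inner_eq_zero hB0 fun B C hBC => hBB B C hBC
  have hE : Module.finrank ℂ (Wᗮ ⊓ U : Submodule ℂ _) ≤ r := by
    have := Submodule.finrank_add_inf_finrank_orthogonal hWU
    omega
  -- the projected point vectors
  let co : V → {B // B ∈ S.blocks} → ℂ := fun p B =>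
    inner ℂ (x (.inr B)) (x (.inl p)) / inner ℂ (x (.inr B)) (x (.inr B))
  let y : V → EuclideanSpace ℂ (V ⊕ {B // B ∈ S.blocks}) := fun p =>
    x (.inl p) - ∑ B, co p B • x (.inr B)
  have hyB : ∀ p (C : {B // B ∈ S.blocks}), inner ℂ (x (.inr C)) (y p) = 0 := by
    intro p C
    simp only [y]
    rw [inner_sub_right, inner_sum, Finset.sum_eq_single C]
    · rw [inner_smul_right]
      simp only [co]
      rw [div_mul_cancel₀ _ (hN C), sub_self]
    · intro B _ hB
      rw [inner_smul_right, hBB C B hB.symm, mul_zero]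
    · intro h; exact absurd (Finset.mem_univ _) h
  have hyE : ∀ p, y p ∈ (Wᗮ ⊓ U : Submodule ℂ _) := by
    intro p
    refine Submodule.mem_inf.2 ⟨?_, ?_⟩
    · rw [Submodule.mem_orthogonal]
      intro u hu
      rw [hW] at hu
      induction hu using Submodule.span_induction with
      | mem u hu => obtain ⟨B, rfl⟩ := hu; exact hyB p B
      | zero => exact inner_zero_left _
      | add u v _ _ h1 h2 => rw [inner_add_left, h1, h2, add_zero]
      | smul a u _ h1 => rw [inner_smul_left, h1, mul_zero]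
    · exact Submodule.sub_mem _ (hxU _)
        (Submodule.sum_mem _ fun B _ => Submodule.smul_mem _ _ (hxU _))
  have hyy : ∀ (B : {B // B ∈ S.blocks}) (p q : V), p ∈ B.1 → q ∈ B.1 → p ≠ q →
      inner ℂ (y p) (y q) = -(inner ℂ (x (.inl p)) (x (.inr B)) *
        inner ℂ (x (.inr B)) (x (.inl q)) / inner ℂ (x (.inr B)) (x (.inr B))) := by
    intro B p q hp hq hne
    have h1 : inner ℂ (y p) (y q) = inner ℂ (x (.inl p)) (y q) := by
      conv_lhs => simp only [y]
      rw [inner_sub_left, sum_inner]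
      have : ∑ C, inner ℂ (co p C • x (.inr C)) (x (.inl q) - ∑ B, co q B • x (.inr B)) = 0 := by
        refine Finset.sum_eq_zero fun C _ => ?_
        rw [inner_smul_left]
        have := hyB q C
        simp only [y] at this
        rw [this, mul_zero]
      rw [this, sub_zero]
    rw [h1]
    simp only [y]
    rw [inner_sub_right, inner_sum, hpq p q hne, zero_sub, Finset.sum_eq_single B]
    · rw [inner_smul_right]
      simp only [co]
      congr 1
      ring
    · intro C _ hC
      rw [inner_smul_right]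
      have h2 : inner ℂ (x (.inr C)) (x (.inl q)) = 0 ∨ inner ℂ (x (.inl p)) (x (.inr C)) = 0 := by
        by_contra hcon2
        push Not at hcon2
        have h3 : q ∈ C.1 := (hpB q C).1 hcon2.1
        have h4 : p ∈ C.1 := by
          apply (hpB p C).1
          intro h5
          apply hcon2.2
          rw [← inner_conj_symm, h5, map_zero]
        obtain ⟨B', -, huniq⟩ := S.pair p q hne
        apply hC
        apply Subtype.ext
        rw [huniq C.1 ⟨C.2, h4, h3⟩, huniq B.1 ⟨B.2, hp, hq⟩]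
      simp only [co]
      rcases h2 with h2 | h2 <;> simp [h2]
    · intro h; exact absurd (Finset.mem_univ _) h
  have hypos : ∀ p, y p ≠ 0 := by
    intro p h0
    obtain ⟨q, hq⟩ := hV p
    obtain ⟨B, ⟨hB, hpB', hqB'⟩, -⟩ := S.pair p q hq
    have h1 := hyy ⟨B, hB⟩ p q hpB' hqB' hq
    rw [h0, inner_zero_left] at h1
    have h2 : inner ℂ (x (.inl p)) (x (.inr ⟨B, hB⟩)) ≠ 0 := by
      intro h3
      apply (hpB p ⟨B, hB⟩).2 hpB'
      rw [← inner_conj_symm, h3, map_zero]
    have h3 := (hpB q ⟨B, hB⟩).2 hqB'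
    have h4 := hN ⟨B, hB⟩
    exact neg_ne_zero.2 (div_ne_zero (mul_ne_zero h2 h3) h4) h1.symm
  -- colours
  obtain ⟨E, hEdef⟩ : ∃ E : Submodule ℂ (EuclideanSpace ℂ (V ⊕ {B // B ∈ S.blocks})),
    E = Wᗮ ⊓ U := ⟨_, rfl⟩
  rw [← hEdef] at hE hyE
  let u : V → EuclideanSpace ℂ (V ⊕ {B // B ∈ S.blocks}) := fun p =>
    (((‖y p‖⁻¹ : ℝ) : ℂ)) • y p
  have hu : ∀ p, ‖u p‖ = 1 := by
    intro p
    have h1 : ‖y p‖ ≠ 0 := norm_ne_zero_iff.2 (hypos p)
    simp only [u]
    rw [norm_smul, Complex.norm_real, norm_inv, norm_norm]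
    exact inv_mul_cancel₀ h1
  let u' : V → E := fun p => ⟨u p, Submodule.smul_mem _ _ (hyE p)⟩
  have hu' : ∀ p, ‖u' p‖ = 1 := fun p => hu p
  let φ := (stdOrthonormalBasis ℂ E).repr
  have hcol : ∀ p, ∃ c : t (Module.finrank ℂ E), dist (φ (u' p)) c < 1 / 10 := by
    intro p
    obtain ⟨c, hc, hd⟩ := ht _ (φ (u' p)) (by rw [LinearIsometryEquiv.norm_map, hu'])
    exact ⟨⟨c, hc⟩, hd⟩
  choose col hcol using hcol
  obtain ⟨B, hB, hBmono⟩ := hmono _ hE col
  obtain ⟨p, q, s, hpq', hps', hqs', hBeq⟩ := Finset.card_eq_three.1 (S.card_three B hB)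
  have hpB1 : p ∈ B := by rw [hBeq]; simp
  have hqB1 : q ∈ B := by rw [hBeq]; simp
  have hsB1 : s ∈ B := by rw [hBeq]; simp
  have hclose : ∀ a b : V, a ∈ B → b ∈ B → ‖inner ℂ (u a) (u b) - 1‖ ≤ 1 / 5 := by
    intro a b ha hb
    have h1 : dist (φ (u' a)) (φ (u' b)) ≤ 1 / 5 := by
      have h2 := hcol a
      have h3 := hcol b
      rw [hBmono a ha b hb] at h2
      have := dist_triangle_right (φ (u' a)) (φ (u' b)) (col b)
      linarith
    rw [LinearIsometryEquiv.dist_map, Subtype.dist_eq, dist_eq_norm] at h1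
    have h2 : inner ℂ (u a) (u b) - 1 = - inner ℂ (u a) (u a - u b) := by
      rw [inner_sub_right, inner_self_eq_norm_sq_to_K, hu]
      simp
    rw [h2, norm_neg]
    refine (norm_inner_le_norm _ _).trans ?_
    rw [hu, one_mul]
    exact h1
  have hpos := triple_close (hclose p q hpB1 hqB1) (hclose q s hqB1 hsB1) (hclose s p hsB1 hpB1)
  have huin : ∀ a b : V, inner ℂ (u a) (u b) = ((‖y a‖⁻¹ * ‖y b‖⁻¹ : ℝ) : ℂ) * inner ℂ (y a) (y b) := by
    intro a b
    simp only [u]
    rw [inner_smul_left, inner_smul_right, Complex.conj_ofReal]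
    push_cast
    ring
  set N : ℂ := inner ℂ (x (.inr ⟨B, hB⟩)) (x (.inr ⟨B, hB⟩)) with hNdef
  have hNreal : N = ((‖x (.inr ⟨B, hB⟩)‖ ^ 2 : ℝ) : ℂ) := by
    rw [hNdef, inner_self_eq_norm_sq_to_K]
    simp
  have hsq : ∀ a : V, inner ℂ (x (.inr ⟨B, hB⟩)) (x (.inl a)) *
      inner ℂ (x (.inl a)) (x (.inr ⟨B, hB⟩)) =
      ((Complex.normSq (inner ℂ (x (.inr ⟨B, hB⟩)) (x (.inl a))) : ℝ) : ℂ) := by
    intro a
    rw [← Complex.mul_conj, inner_conj_symm]
  have hfin : inner ℂ (u p) (u q) * inner ℂ (u q) (u s) * inner ℂ (u s) (u p) =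
      ((-(‖y p‖⁻¹ ^ 2 * ‖y q‖⁻¹ ^ 2 * ‖y s‖⁻¹ ^ 2 *
        (Complex.normSq (inner ℂ (x (.inr ⟨B, hB⟩)) (x (.inl p))) *
        Complex.normSq (inner ℂ (x (.inr ⟨B, hB⟩)) (x (.inl q))) *
        Complex.normSq (inner ℂ (x (.inr ⟨B, hB⟩)) (x (.inl s)))) /
        (‖x (.inr ⟨B, hB⟩)‖ ^ 2) ^ 3) : ℝ) : ℂ) := by
    rw [huin, huin, huin, hyy ⟨B, hB⟩ p q hpB1 hqB1 hpq', hyy ⟨B, hB⟩ q s hqB1 hsB1 hqs',
      hyy ⟨B, hB⟩ s p hsB1 hpB1 (Ne.symm hps'), ← hNdef]
    push_cast
    rw [← hsq p, ← hsq q, ← hsq s]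
    have h1 : ((‖x (.inr ⟨B, hB⟩)‖ : ℝ) : ℂ) ^ 2 = N := by rw [hNreal]; push_cast; rfl
    rw [h1]
    ring
  rw [hfin, Complex.ofReal_re] at hpos
  have hneg : 0 ≤ ‖y p‖⁻¹ ^ 2 * ‖y q‖⁻¹ ^ 2 * ‖y s‖⁻¹ ^ 2 *
        (Complex.normSq (inner ℂ (x (.inr ⟨B, hB⟩)) (x (.inl p))) *
        Complex.normSq (inner ℂ (x (.inr ⟨B, hB⟩)) (x (.inl q))) *
        Complex.normSq (inner ℂ (x (.inr ⟨B, hB⟩)) (x (.inl s)))) /
        (‖x (.inr ⟨B, hB⟩)‖ ^ 2) ^ 3 := by
    have h1 := Complex.normSq_nonneg (inner ℂ (x (.inr ⟨B, hB⟩)) (x (.inl p)))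
    have h2 := Complex.normSq_nonneg (inner ℂ (x (.inr ⟨B, hB⟩)) (x (.inl q)))
    have h3 := Complex.normSq_nonneg (inner ℂ (x (.inr ⟨B, hB⟩)) (x (.inl s)))
    positivity
  linarith

end lower

/-! ## Counting blocks, isomorphisms, systems from operations -/

section general

variable {V : Type} [Fintype V] [DecidableEq V]

theorem card_blocks (S : STS V) :
    6 * S.blocks.card = Fintype.card V * Fintype.card V - Fintype.card V := by
  have h : (Finset.univ : Finset V).offDiag = S.blocks.biUnion (fun B => B.offDiag) := by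
    ext ⟨x, y⟩
    simp only [Finset.mem_offDiag, Finset.mem_univ, true_and, Finset.mem_biUnion]
    constructor
    · intro hxy
      obtain ⟨B, ⟨hB, hx, hy⟩, -⟩ := S.pair x y hxy
      exact ⟨B, hB, hx, hy, hxy⟩
    · rintro ⟨B, hB, hx, hy, hxy⟩
      exact hxy
  have h1 : (Finset.univ : Finset V).offDiag.card = ∑ B ∈ S.blocks, B.offDiag.card := by
    rw [h, Finset.card_biUnion]
    intro B hB C hC hBC
    rw [Function.onFun, Finset.disjoint_left]
    rintro ⟨x, y⟩ h1 h2
    simp only [Finset.mem_offDiag] at h1 h2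
    obtain ⟨D, -, hD⟩ := S.pair x y h1.2.2
    exact hBC ((hD B ⟨hB, h1.1, h1.2.1⟩).trans (hD C ⟨hC, h2.1, h2.2.1⟩).symm)
  rw [Finset.offDiag_card, Finset.card_univ] at h1
  rw [h1, Finset.sum_congr rfl (g := fun _ => 6)]
  · simp [mul_comm]
  · intro B hB
    rw [Finset.offDiag_card, S.card_three B hB]

omit [DecidableEq V] in
theorem msr_le_of_iso {W : Type} [Fintype W] [DecidableEq W] {S : STS V} {T : STS W}
    (h : Iso S T) : msr (incGraph S) ≤ msr (incGraph T) := by
  obtain ⟨e, he⟩ := h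
  obtain ⟨A, hA, hadj, hrank⟩ := msr_mem (incGraph T)
  let φ : V ⊕ {B // B ∈ S.blocks} → W ⊕ {B // B ∈ T.blocks} := fun a =>
    match a with
    | .inl p => .inl (e p)
    | .inr B => .inr ⟨B.1.image e, (he B.1).1 B.2⟩
  have hφ : Function.Injective φ := by
    rintro (p | B) (q | C) hpq
    · simp only [φ, Sum.inl.injEq] at hpq
      rw [e.injective hpq]
    · simp [φ] at hpq
    · simp [φ] at hpq
    · simp only [φ, Sum.inr.injEq, Subtype.mk.injEq] at hpq
      congr 1
      exact Subtype.ext (Finset.image_injective e.injective hpq)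
  have hle : (A.submatrix φ φ).rank ≤ msr (incGraph T) := by
    rw [← hrank]
    exact Matrix.rank_submatrix_le A φ φ
  refine le_trans (Nat.sInf_le ⟨A.submatrix φ φ, hA.submatrix φ, ?_, rfl⟩) hle
  intro i j hij
  rw [Matrix.submatrix_apply, hadj _ _ (fun h => hij (hφ h))]
  rcases i with p | B <;> rcases j with q | C <;> simp [φ, incGraph]

omit [Fintype V] in
theorem Iso.symm {W : Type} [DecidableEq W] {S : STS V} {T : STS W}
    (h : Iso S T) : Iso T S := by
  obtain ⟨e, he⟩ := h
  refine ⟨e.symm, fun B => ?_⟩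
  rw [he, Finset.image_image]
  simp

theorem msr_eq_of_iso {W : Type} [Fintype W] [DecidableEq W] {S : STS V} {T : STS W}
    (h : Iso S T) : msr (incGraph S) = msr (incGraph T) :=
  le_antisymm (msr_le_of_iso h) (msr_le_of_iso h.symm)

/-- The Steiner triple system of a totally symmetric idempotent operation. -/
def ofOp (op : V → V → V) (h1 : ∀ x, op x x = x) (h2 : ∀ x y, op x y = op y x)
    (h3 : ∀ x y, op x (op x y) = y) : STS V where
  blocks := ((Finset.univ : Finset (V × V)).filter (fun p => p.1 ≠ p.2)).image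
    (fun p => {p.1, p.2, op p.1 p.2})
  card_three := by
    intro B hB
    simp only [Finset.mem_image, Finset.mem_filter, Finset.mem_univ, true_and] at hB
    obtain ⟨⟨x, y⟩, hxy, rfl⟩ := hB
    simp only at hxy ⊢
    rw [Finset.card_eq_three]
    refine ⟨x, y, op x y, hxy, ?_, ?_, rfl⟩
    · intro h
      apply hxy
      have := h3 x y
      rw [← h, h1] at this
      exact this
    · intro h
      apply hxy
      have := h3 y x
      rw [h2 y x, ← h, h1] at this
      exact this.symm
  pair := by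
    intro x y hxy
    refine ⟨{x, y, op x y}, ⟨?_, by simp, by simp⟩, ?_⟩
    · simp only [Finset.mem_image, Finset.mem_filter, Finset.mem_univ, true_and]
      exact ⟨(x, y), hxy, rfl⟩
    · rintro B ⟨hB, hx, hy⟩
      simp only [Finset.mem_image, Finset.mem_filter, Finset.mem_univ, true_and] at hB
      obtain ⟨⟨a, b⟩, hab, rfl⟩ := hB
      simp only at hab hx hy ⊢
      have k1 : ∀ x y, op (op x y) x = y := fun x y => by rw [h2, h3]
      have k2 : ∀ x y, op y (op x y) = x := fun x y => by rw [h2 x y, h3]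
      have k3 : ∀ x y, op (op x y) y = x := fun x y => by rw [h2, k2]
      simp only [Finset.mem_insert, Finset.mem_singleton] at hx hy
      rcases hx with rfl | rfl | rfl <;> rcases hy with rfl | rfl | rfl
      · exact absurd rfl hxy
      · rfl
      · rw [h3]; ext z; simp only [Finset.mem_insert, Finset.mem_singleton]; tauto
      · rw [h2]; ext z; simp only [Finset.mem_insert, Finset.mem_singleton]; tauto
      · exact absurd rfl hxy
      · rw [k2]; ext z; simp only [Finset.mem_insert, Finset.mem_singleton]; tauto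
      · rw [k1]; ext z; simp only [Finset.mem_insert, Finset.mem_singleton]; tauto
      · rw [k3]; ext z; simp only [Finset.mem_insert, Finset.mem_singleton]; tauto
      · exact absurd rfl hxy

theorem mem_ofOp (op : V → V → V) (h1 : ∀ x, op x x = x) (h2 : ∀ x y, op x y = op y x)
    (h3 : ∀ x y, op x (op x y) = y) {x y : V} (hxy : x ≠ y) :
    ({x, y, op x y} : Finset V) ∈ (ofOp op h1 h2 h3).blocks := by
  simp only [ofOp, Finset.mem_image, Finset.mem_filter, Finset.mem_univ, true_and]
  exact ⟨(x, y), hxy, rfl⟩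

theorem third_of_mem (op : V → V → V) (h1 : ∀ x, op x x = x) (h2 : ∀ x y, op x y = op y x)
    (h3 : ∀ x y, op x (op x y) = y) {B : Finset V} (hB : B ∈ (ofOp op h1 h2 h3).blocks)
    {p q s : V} (hp : p ∈ B) (hq : q ∈ B) (hs : s ∈ B) (hpq : p ≠ q) (hqs : q ≠ s)
    (hps : p ≠ s) : s = op p q := by
  obtain ⟨C, -, hC⟩ := (ofOp op h1 h2 h3).pair p q hpq
  have e1 := hC B ⟨hB, hp, hq⟩
  have e2 := hC {p, q, op p q} ⟨mem_ofOp op h1 h2 h3 hpq, by simp, by simp⟩
  rw [e1, ← e2] at hs
  simp only [Finset.mem_insert, Finset.mem_singleton] at hs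
  rcases hs with h | h | h
  · exact absurd h.symm hps
  · exact absurd h.symm hqs
  · exact h

end general

/-! ## The affine systems -/

section affine

/-- The third point on the affine line over `𝔽₃`. -/
def aop {ι : Type} (x y : ι → ZMod 3) : ι → ZMod 3 := fun i => - x i - y i

theorem aop_self {ι : Type} (x : ι → ZMod 3) : aop x x = x := by
  funext i
  have : ∀ a : ZMod 3, - a - a = a := by decide
  exact this (x i)

theorem aop_comm {ι : Type} (x y : ι → ZMod 3) : aop x y = aop y x := by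
  funext i
  simp only [aop]
  ring

theorem aop_aop {ι : Type} (x y : ι → ZMod 3) : aop x (aop x y) = y := by
  funext i
  simp only [aop]
  ring

/-- The monochromatic lines of the Hales-Jewett theorem. -/
theorem exists_mono {κ : Type} [Finite κ] : ∃ (ι : Type) (_ : Fintype ι),
    ∀ C : (ι → ZMod 3) → κ, ∃ x y : ι → ZMod 3, x ≠ y ∧ C x = C y ∧ C y = C (aop x y) := by
  obtain ⟨ι, hι, h⟩ := Combinatorics.Line.exists_mono_in_high_dimension (ZMod 3) κ
  refine ⟨ι, hι, fun C => ?_⟩
  obtain ⟨l, c, hc⟩ := h C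
  refine ⟨l 0, l 1, ?_, ?_, ?_⟩
  · intro h0
    obtain ⟨i, hi⟩ := l.proper
    have h1 := congrFun h0 i
    simp only [Combinatorics.Line.coe_apply, hi, Option.getD_none] at h1
    exact absurd h1 (by decide)
  · rw [hc, hc]
  · have : aop (l 0) (l 1) = l 2 := by
      funext i
      simp only [aop, Combinatorics.Line.coe_apply]
      cases l.idxFun i with
      | none => simp only [Option.getD_none]; decide
      | some a =>
        simp only [Option.getD_some]
        have : ∀ a : ZMod 3, - a - a = a := by decide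
        exact this a
    rw [this, hc, hc]

end affine

/-! ## The systems of Bose -/

section bose

variable {u : ℕ} (h : ZMod u)

/-- The operation of the Steiner triple system of Bose. -/
def bop (p q : ZMod u × Fin 3) : ZMod u × Fin 3 :=
  if p.2 = q.2 then (if p.1 = q.1 then p else ((p.1 + q.1) * h, p.2 + 1))
  else if q.2 = p.2 + 1 then (if p.1 = q.1 then (p.1, p.2 + 2) else (2 * q.1 - p.1, p.2))
  else (if p.1 = q.1 then (p.1, q.2 + 2) else (2 * p.1 - q.1, q.2))

theorem fin3_add_one_ne (i : Fin 3) : i ≠ i + 1 := by revert i; decide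
theorem fin3_ne_add_two (i : Fin 3) : i + 1 ≠ i + 2 := by revert i; decide
theorem fin3_ne_add_two' (i : Fin 3) : i ≠ i + 1 + 1 := by revert i; decide
theorem fin3_cases (i j : Fin 3) : j = i ∨ j = i + 1 ∨ i = j + 1 := by revert i j; decide

theorem bop_same {x y : ZMod u} (hxy : x ≠ y) (i : Fin 3) :
    bop h (x, i) (y, i) = ((x + y) * h, i + 1) := by simp [bop, hxy]
theorem bop_same_eq (x : ZMod u) (i : Fin 3) : bop h (x, i) (x, i) = (x, i) := by simp [bop]
theorem bop_up {x y : ZMod u} (hxy : x ≠ y) (i : Fin 3) :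
    bop h (x, i) (y, i + 1) = (2 * y - x, i) := by simp [bop, hxy]
theorem bop_up_eq (x : ZMod u) (i : Fin 3) :
    bop h (x, i) (x, i + 1) = (x, i + 2) := by simp [bop]
theorem bop_down {x y : ZMod u} (hxy : x ≠ y) (i : Fin 3) :
    bop h (x, i + 1) (y, i) = (2 * x - y, i) := by
  have := fin3_ne_add_two' i
  simp [bop, hxy, this]
theorem bop_down_eq (x : ZMod u) (i : Fin 3) :
    bop h (x, i + 1) (x, i) = (x, i + 2) := by
  have := fin3_ne_add_two' i
  simp [bop, this]

theorem bop_self (p : ZMod u × Fin 3) : bop h p p = p := bop_same_eq h p.1 p.2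

theorem bop_comm (p q : ZMod u × Fin 3) : bop h p q = bop h q p := by
  obtain ⟨x, i⟩ := p
  obtain ⟨y, j⟩ := q
  by_cases hxy : x = y
  · subst hxy
    rcases fin3_cases i j with rfl | rfl | rfl
    · rfl
    · rw [bop_up_eq, bop_down_eq]
    · rw [bop_up_eq, bop_down_eq]
  · have hyx : y ≠ x := Ne.symm hxy
    rcases fin3_cases i j with rfl | rfl | rfl
    · rw [bop_same h hxy, bop_same h hyx, add_comm x y]
    · rw [bop_up h hxy, bop_down h hyx]
    · rw [bop_up h hyx, bop_down h hxy]

variable {h}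

theorem two_mul_cancel (hh : 2 * h = 1) {a b : ZMod u} (hab : 2 * a = 2 * b) : a = b := by
  have e : ∀ c : ZMod u, c = h * (2 * c) := fun c => by
    linear_combination -c * hh
  rw [e a, e b, hab]

theorem bop_bop (hh : 2 * h = 1) (p q : ZMod u × Fin 3) : bop h p (bop h p q) = q := by
  obtain ⟨x, i⟩ := p
  obtain ⟨y, j⟩ := q
  by_cases hxy : x = y
  · subst hxy
    rcases fin3_cases i j with rfl | rfl | rfl
    · rw [bop_same_eq, bop_same_eq]
    · rw [bop_up_eq]
      have e : i = i + 2 + 1 := by revert i; decide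
      have e2 : bop h (x, i) (x, i + 2) = bop h (x, i + 2 + 1) (x, i + 2) := by rw [← e]
      rw [e2, bop_down_eq]
      have e3 : ∀ i : Fin 3, i + 2 + 2 = i + 1 := by decide
      rw [e3]
    · rw [bop_down_eq]
      have e3 : ∀ i : Fin 3, i + 2 = i + 1 + 1 := by decide
      rw [e3, bop_up_eq]
      have e4 : ∀ i : Fin 3, i + 1 + 2 = i := by decide
      rw [e4]
  · rcases fin3_cases i j with rfl | rfl | rfl
    · have h1 : x ≠ (x + y) * h := by
        intro h2
        apply hxy
        linear_combination 2 * h2 + (x + y) * hh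
      rw [bop_same h hxy, bop_up h h1]
      congr 1
      linear_combination (x + y) * hh
    · have h1 : x ≠ 2 * y - x := by
        intro h2
        exact hxy (two_mul_cancel hh (by linear_combination h2))
      rw [bop_up h hxy, bop_same h h1]
      congr 1
      linear_combination y * hh
    · have h1 : x ≠ 2 * x - y := by
        intro h2
        apply hxy
        linear_combination -h2
      rw [bop_down h hxy, bop_down h h1]
      congr 1
      ring

/-! ### The real vectors -/

variable (u) [NeZero u]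

noncomputable def co (x : ZMod u) : ℝ := (ZMod.stdAddChar x).re
noncomputable def si (x : ZMod u) : ℝ := (ZMod.stdAddChar x).im

variable {u}

theorem norm_char (x : ZMod u) : co u x ^ 2 + si u x ^ 2 = 1 := by
  have h1 : ‖(ZMod.stdAddChar x : ℂ)‖ = 1 := by
    rw [ZMod.stdAddChar_apply]
    exact Circle.norm_coe _
  have h2 := Complex.sq_norm (ZMod.stdAddChar x : ℂ)
  rw [h1, Complex.normSq_apply] at h2
  simp only [co, si]
  linarith

theorem si_sub (x y : ZMod u) : si u (x - y) = si u x * co u y - co u x * si u y := by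
  simp only [si, co]
  rw [sub_eq_add_neg, AddChar.map_add_eq_mul, AddChar.map_neg_eq_conj, Complex.mul_im,
    Complex.conj_re, Complex.conj_im]
  ring

theorem si_neg (x : ZMod u) : si u (-x) = - si u x := by
  simp only [si]
  rw [AddChar.map_neg_eq_conj, Complex.conj_im]

theorem si_zero : si u 0 = 0 := by
  simp [si]

theorem si_ne_zero (hh : 2 * h = 1) {x : ZMod u} (hx : x ≠ 0) : si u x ≠ 0 := by
  intro h0
  apply hx
  have h1 := norm_char x
  rw [h0] at h1
  have h2 : (ZMod.stdAddChar x : ℂ) = ((co u x : ℝ) : ℂ) := by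
    apply Complex.ext
    · simp [co]
    · simpa [si] using h0
  have h3 : (ZMod.stdAddChar (2 * x) : ℂ) = ZMod.stdAddChar (0 : ZMod u) := by
    rw [two_mul, AddChar.map_add_eq_mul, h2, AddChar.map_zero_eq_one, ← Complex.ofReal_mul]
    have : co u x * co u x = 1 := by nlinarith
    rw [this, Complex.ofReal_one]
  have h4 : 2 * x = 0 := ZMod.injective_stdAddChar h3
  exact two_mul_cancel hh (by rw [h4, mul_zero])

/-- The real vectors attached to the points of the system of Bose. -/
noncomputable def wvec (δ : ℝ) (p : ZMod u × Fin 3) (k : Fin 3 × Fin 3) : ℝ :=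
  if k.2 = 0 then (if p.2 = k.1 then 2 else -δ)
  else if k.2 = 1 then (if p.2 = k.1 then co u p.1 else if p.2 = k.1 + 1 then - si u p.1 else 0)
  else (if p.2 = k.1 then si u p.1 else if p.2 = k.1 + 1 then co u p.1 else 0)

/-- Their Gram matrix. -/
noncomputable def gram (δ : ℝ) (p q : ZMod u × Fin 3) : ℝ :=
  ∑ k, wvec δ p k * wvec δ q k

theorem gram_symm (δ : ℝ) (p q : ZMod u × Fin 3) : gram δ p q = gram δ q p :=
  Finset.sum_congr rfl fun _ _ => mul_comm _ _

theorem gram_same (δ : ℝ) (x y : ZMod u) (i : Fin 3) :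
    gram δ (x, i) (y, i) = 4 + 2 * δ ^ 2 + 2 * (co u x * co u y + si u x * si u y) := by
  simp only [gram, wvec, Fintype.sum_prod_type, Fin.sum_univ_three]
  fin_cases i <;> simp <;> ring

theorem gram_up (δ : ℝ) (x y : ZMod u) (i : Fin 3) :
    gram δ (x, i) (y, i + 1) = si u (x - y) - (4 * δ - δ ^ 2) := by
  rw [si_sub]
  simp only [gram, wvec, Fintype.sum_prod_type, Fin.sum_univ_three]
  fin_cases i <;> simp <;> ring

theorem gram_same_pos (δ : ℝ) (x y : ZMod u) (i : Fin 3) : 0 < gram δ (x, i) (y, i) := by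
  rw [gram_same]
  have h1 := norm_char x
  have h2 := norm_char y
  nlinarith [sq_nonneg (co u x + co u y), sq_nonneg (si u x + si u y), sq_nonneg δ]

theorem gram_neg (hh : 2 * h = 1) {δ : ℝ} (hδ0 : 0 < δ) (hδ1 : δ < 1)
    (hδ : ∀ d : ZMod u, d ≠ 0 → 4 * δ < |si u d|) {p q : ZMod u × Fin 3} (hpq : p ≠ q) :
    gram δ p q * gram δ q (bop h p q) * gram δ (bop h p q) p < 0 := by
  obtain ⟨ε, hε, hε0, hε4⟩ : ∃ ε : ℝ, ε = 4 * δ - δ ^ 2 ∧ 0 < ε ∧ ε < 4 * δ :=
    ⟨_, rfl, by nlinarith, by nlinarith⟩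
  have hsq : ∀ d : ZMod u, d ≠ 0 → 0 < (si u d - ε) * (si u d + ε) := by
    intro d hd
    have h1 := hδ d hd
    have h2 : ε ^ 2 < |si u d| ^ 2 := by
      apply pow_lt_pow_left₀ (by linarith) hε0.le (by norm_num)
    rw [sq_abs] at h2
    nlinarith
  have up : ∀ (x y : ZMod u) (i : Fin 3),
      gram δ (x, i) (y, i + 1) * gram δ (y, i + 1) (bop h (x, i) (y, i + 1)) *
        gram δ (bop h (x, i) (y, i + 1)) (x, i) < 0 := by
    intro x y i
    by_cases hxy : x = y
    · subst hxy
      rw [bop_up_eq]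
      have e1 : ∀ i : Fin 3, i + 2 = i + 1 + 1 := by decide
      have e2 : ∀ i : Fin 3, i = i + 2 + 1 := by decide
      have g1 : gram δ (x, i) (x, i + 1) = - ε := by
        rw [gram_up, sub_self, si_zero, hε]; ring
      have g2 : gram δ (x, i + 1) (x, i + 2) = - ε := by
        rw [e1, gram_up, sub_self, si_zero, hε]; ring
      have g3 : gram δ (x, i + 2) (x, i) = - ε := by
        have : gram δ (x, i + 2) (x, i) = gram δ (x, i + 2) (x, i + 2 + 1) := by rw [← e2]
        rw [this, gram_up, sub_self, si_zero, hε]; ring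
      rw [g1, g2, g3]
      have : 0 < ε * ε * ε := by positivity
      nlinarith
    · rw [bop_up h hxy, gram_up, gram_symm δ (y, i + 1), gram_up]
      have e1 : 2 * y - x - y = -(x - y) := by ring
      rw [e1, si_neg, ← hε]
      have h1 := hsq (x - y) (sub_ne_zero.2 hxy)
      have h2 := gram_same_pos δ (2 * y - x) x i
      nlinarith [mul_pos h1 h2]
  obtain ⟨x, i⟩ := p
  obtain ⟨y, j⟩ := q
  rcases fin3_cases i j with rfl | rfl | rfl
  · have hxy : x ≠ y := fun h => hpq (by rw [h])
    have h1 : x ≠ (x + y) * h := by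
      intro h2
      apply hxy
      linear_combination 2 * h2 + (x + y) * hh
    rw [bop_same h hxy, gram_up, gram_symm δ (_, j + 1), gram_up]
    have e1 : y - (x + y) * h = -(x - (x + y) * h) := by
      linear_combination (-(x + y)) * hh
    rw [e1, si_neg, ← hε]
    have h2 := hsq _ (sub_ne_zero.2 h1)
    have h3 := gram_same_pos δ x y j
    nlinarith [mul_pos h2 h3]
  · exact up x y i
  · have := up y x j
    rw [bop_comm h (x, j + 1) (y, j), gram_symm δ (x, j + 1) (y, j),
      gram_symm δ (y, j) (bop h (y, j) (x, j + 1)), gram_symm δ (bop h (y, j) (x, j + 1)) (x, j + 1)]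
    linarith [this, mul_comm (gram δ (x, j + 1) (bop h (y, j) (x, j + 1)))
      (gram δ (bop h (y, j) (x, j + 1)) (y, j)),
      mul_assoc (gram δ (y, j) (x, j + 1)) (gram δ (bop h (y, j) (x, j + 1)) (y, j))
        (gram δ (x, j + 1) (bop h (y, j) (x, j + 1))),
      mul_assoc (gram δ (y, j) (x, j + 1)) (gram δ (x, j + 1) (bop h (y, j) (x, j + 1)))
        (gram δ (bop h (y, j) (x, j + 1)) (y, j))]

theorem exists_delta (hh : 2 * h = 1) : ∃ δ : ℝ, 0 < δ ∧ δ < 1 ∧
    ∀ d : ZMod u, d ≠ 0 → 4 * δ < |si u d| := by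
  by_cases hne : ((Finset.univ : Finset (ZMod u)).filter (fun d => d ≠ 0)).Nonempty
  · obtain ⟨d0, hd0, hmin⟩ := Finset.exists_min_image _ (fun d => |si u d|) hne
    simp only [Finset.mem_filter, Finset.mem_univ, true_and] at hd0 hmin
    have h1 : 0 < |si u d0| := abs_pos.2 (si_ne_zero hh hd0)
    have h2 : |si u d0| ≤ 1 := by
      rw [abs_le_one_iff_mul_self_le_one]
      nlinarith [norm_char d0, sq_nonneg (co u d0)]
    refine ⟨|si u d0| / 5, by positivity, by linarith, fun d hd => ?_⟩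
    have := hmin d hd
    linarith
  · refine ⟨1 / 2, by norm_num, by norm_num, fun d hd => ?_⟩
    exact absurd ⟨d, by simpa using hd⟩ hne

end bose

/-! ## Transport to `Fin v` and the result -/

/-- Transport of an operation. -/
def tr {V W : Type} (e : V ≃ W) (op : V → V → V) : W → W → W :=
  fun a b => e (op (e.symm a) (e.symm b))

/-- **Q1, answer: yes.**  There are an order `v` and two non-isomorphic Steiner triple systems of
order `v` whose incidence graphs have different minimum semidefinite ranks. -/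
theorem result : ∃ (v : ℕ) (S T : STS (Fin v)), ¬ Iso S T ∧
    msr (incGraph S) ≠ msr (incGraph T) := by
  choose t htfin ht using exists_cover
  have hfin : ∀ d, Finite (t d) := fun d => (htfin d).to_subtype
  obtain ⟨ι, hι, hmono⟩ := exists_mono (κ := Σ d : Fin 10, t d)
  have : DecidableEq ι := Classical.decEq ι
  have hκ : Nonempty (Σ d : Fin 10, t d) := by
    obtain ⟨c, hc, -⟩ := ht 0 0 (by simp)
    exact ⟨⟨0, ⟨c, hc⟩⟩⟩
  have hιne : Nonempty ι := by
    obtain ⟨x, y, hxy, -⟩ := hmono (fun _ => hκ.some)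
    by_contra hcon
    rw [not_nonempty_iff] at hcon
    exact hxy (funext fun i => hcon.elim i)
  obtain ⟨m, hm⟩ : ∃ m, Fintype.card ι = m + 1 := ⟨Fintype.card ι - 1, by
    have := Fintype.card_pos (α := ι); omega⟩
  have hu0 : NeZero (3 ^ m) := ⟨by positivity⟩
  have hodd : ∃ k, 3 ^ m = 2 * k + 1 := by
    have : Odd (3 ^ m) := Odd.pow (by decide)
    obtain ⟨k, hk⟩ := this
    exact ⟨k, hk⟩
  obtain ⟨k, hk⟩ := hodd
  obtain ⟨h, hh⟩ : ∃ h : ZMod (3 ^ m), 2 * h = 1 := by
    refine ⟨((k + 1 : ℕ) : ZMod (3 ^ m)), ?_⟩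
    have h1 : ((3 ^ m : ℕ) : ZMod (3 ^ m)) = 0 := ZMod.natCast_self _
    have h2 : ((2 * (k + 1) : ℕ) : ZMod (3 ^ m)) = ((3 ^ m : ℕ) : ZMod (3 ^ m)) + 1 := by
      rw [show 2 * (k + 1) = 3 ^ m + 1 by omega]
      push_cast
      ring
    rw [h1, zero_add] at h2
    rw [← h2]
    push_cast
    ring
  have hc1 : Fintype.card (ι → ZMod 3) = 3 ^ (m + 1) := by
    rw [Fintype.card_fun, ZMod.card, hm]
  have hc2 : Fintype.card (ZMod (3 ^ m) × Fin 3) = 3 ^ (m + 1) := by
    rw [Fintype.card_prod, ZMod.card, Fintype.card_fin, pow_succ]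
  let e1 : (ι → ZMod 3) ≃ Fin (3 ^ (m + 1)) := Fintype.equivFinOfCardEq hc1
  let e2 : (ZMod (3 ^ m) × Fin 3) ≃ Fin (3 ^ (m + 1)) := Fintype.equivFinOfCardEq hc2
  let S : STS (Fin (3 ^ (m + 1))) := ofOp (tr e1 aop)
    (fun x => by simp [tr, aop_self]) (fun x y => by simp only [tr]; rw [aop_comm])
    (fun x y => by simp [tr, aop_aop])
  let T : STS (Fin (3 ^ (m + 1))) := ofOp (tr e2 (bop h))
    (fun x => by simp [tr, bop_self]) (fun x y => by simp only [tr]; rw [bop_comm])
    (fun x y => by simp [tr, bop_bop hh])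
  have hblocks : S.blocks.card = T.blocks.card := by
    have h1 := card_blocks S
    have h2 := card_blocks T
    omega
  have hT : msr (incGraph T) ≤ T.blocks.card + 9 := by
    obtain ⟨δ, hδ0, hδ1, hδ⟩ := exists_delta hh
    have h1 := msr_le T (R := Fin 3 × Fin 3) (fun p => wvec δ (e2.symm p))
      (fun p q => gram δ (e2.symm p) (e2.symm q)) (fun p q => rfl) (by
        intro B hB p hp q hq s hs hpq hqs hps
        have h2 : s = tr e2 (bop h) p q := third_of_mem _ _ _ _ hB hp hq hs hpq hqs hps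
        have h3 : e2.symm s = bop h (e2.symm p) (e2.symm q) := by
          rw [h2]; simp [tr]
        have h4 : e2.symm p ≠ e2.symm q := fun h => hpq (e2.symm.injective h)
        rw [h3]
        exact gram_neg hh hδ0 hδ1 hδ h4)
    simpa using h1
  have hS : S.blocks.card + 9 < msr (incGraph S) := by
    refine lt_msr S 9 t ht ?_ ?_
    · intro d hd C
      obtain ⟨x, y, hxy, hxyC, hyzC⟩ := hmono (fun z => ⟨⟨d, by omega⟩, C (e1 z)⟩)
      have h1 : C (e1 x) = C (e1 y) := by simpa using hxyC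
      have h2 : C (e1 y) = C (e1 (aop x y)) := by simpa using hyzC
      have h3 : e1 (aop x y) = tr e1 aop (e1 x) (e1 y) := by simp [tr]
      refine ⟨{e1 x, e1 y, tr e1 aop (e1 x) (e1 y)}, ?_, ?_⟩
      · exact mem_ofOp _ _ _ _ (fun h => hxy (e1.injective h))
      · rw [← h3]
        intro a ha b hb
        simp only [Finset.mem_insert, Finset.mem_singleton] at ha hb
        rcases ha with rfl | rfl | rfl <;> rcases hb with rfl | rfl | rfl <;> simp [h1, h2]
    · intro p
      have : Nontrivial (Fin (3 ^ (m + 1))) := by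
        rw [← Fintype.one_lt_card_iff_nontrivial, Fintype.card_fin]
        exact Nat.one_lt_pow (by omega) (by norm_num)
      obtain ⟨q, hq⟩ := exists_ne p
      exact ⟨q, hq.symm⟩
  refine ⟨3 ^ (m + 1), S, T, ?_, by omega⟩
  intro hiso
  have := msr_eq_of_iso hiso
  omega

end Pool.Agent.Results.MP_2ade00_co.DifferentRanks
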